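import Pool.Agent.Y291.Ov.Levels

set_option autoImplicit false

open MeasureTheory Set Filter Topology Matrix
open scoped ENNReal NNReal

namespace Pool.Agent.Y291.Ov

variable {d : ℕ} {R : Matrix (Fin d) (Fin d) ℤ} {B : Finset (Fin d → ℤ)}
  {μ : Measure (Fin d → ℝ)} {T : Set (Fin d → ℝ)}

/-- unique decomposition of the digits of level `m + k` -/
lemma unique_decomp (hcard : ∀ k, (C R B k).card = B.card ^ k) (m k : ℕ) :
    ∀ u ∈ C R B m, ∀ w ∈ C R B k, ∀ u' ∈ C R B m, ∀ w' ∈ C R B k,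
      w + (R ^ k) *ᵥ u = w' + (R ^ k) *ᵥ u' → u = u' ∧ w = w' := by
  classical
  set I : Finset ((Fin d → ℤ) × (Fin d → ℤ)) := C R B m ×ˢ C R B k with hI
  have him : I.image (fun i => i.2 + (R ^ k) *ᵥ i.1) = C R B (m + k) := by
    ext x
    rw [mem_C_add, Finset.mem_image]
    constructor
    · rintro ⟨i, hi, rfl⟩
      have hi' := Finset.mem_product.1 hi
      exact ⟨i.1, hi'.1, i.2, hi'.2, rfl⟩
    · rintro ⟨u, hu, w, hw, rfl⟩
      exact ⟨(u, w), Finset.mem_product.2 ⟨hu, hw⟩, rfl⟩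
  have hc : (I.image (fun i => i.2 + (R ^ k) *ᵥ i.1)).card = I.card := by
    rw [him, hcard, hI, Finset.card_product, hcard, hcard, pow_add]
  have hinj := Finset.card_image_iff.1 hc
  intro u hu w hw u' hu' w' hw' h
  have h1 := hinj (Finset.mem_coe.2 (Finset.mem_product.2 (⟨hu, hw⟩ : (u, w).1 ∈ _ ∧ (u, w).2 ∈ _)))
    (Finset.mem_coe.2 (Finset.mem_product.2 (⟨hu', hw'⟩ : (u', w').1 ∈ _ ∧ (u', w').2 ∈ _))) h
  exact ⟨congrArg Prod.fst h1, congrArg Prod.snd h1⟩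

open Classical in
/-- neighbours -/
noncomputable def Nb (R : Matrix (Fin d) (Fin d) ℤ) (B : Finset (Fin d → ℤ))
    (T : Set (Fin d → ℝ)) (k : ℕ) (w : Fin d → ℤ) : Finset (Fin d → ℤ) :=
  (C R B k).filter (fun v => ∃ x ∈ T, ∃ y ∈ T, psi R k v x = psi R k w y)

lemma exists_bound (hR : R.det ≠ 0) (hTc : IsCompact T) :
    ∃ M : ℕ, ∀ k w, (Nb R B T k w).card ≤ M := by
  classical
  obtain ⟨K, hK⟩ := hTc.isBounded.exists_norm_le
  obtain ⟨n, hn⟩ := exists_nat_gt (2 * K)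
  set D : Finset (Fin d → ℤ) := Fintype.piFinset (fun _ => Finset.Icc (-(n : ℤ)) n) with hD
  refine ⟨D.card, fun k w => ?_⟩
  refine Finset.card_le_card_of_injOn (fun v => v - w) ?_ (fun a _ b _ h => sub_left_injective h)
  intro v hv
  rw [Finset.mem_coe, Nb, Finset.mem_filter] at hv
  obtain ⟨_, x, hx, y, hy, hxy⟩ := hv
  have h1 : x + cst v = y + cst w := by
    unfold psi at hxy
    have h1 := congrArg (fun v => ((R.map (Int.castRingHom ℝ)) ^ k) *ᵥ v) hxy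
    simpa only [Matrix.mulVec_mulVec, mul_Ri_pow hR, Matrix.one_mulVec] using h1
  have h2 : cst (v - w) = y - x := by
    rw [cst_sub]
    have : cst v - cst w = (x + cst v) - cst w - x := by abel
    rw [this, h1]
    abel
  rw [Finset.mem_coe, hD, Fintype.mem_piFinset]
  intro i
  have h3 : |((v - w) i : ℝ)| ≤ 2 * K := by
    have h4 : ((v - w) i : ℝ) = (y - x) i := by rw [← h2]; rfl
    rw [h4, ← Real.norm_eq_abs]
    refine (norm_le_pi_norm (y - x) i).trans ((norm_sub_le _ _).trans ?_)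
    linarith [hK x hx, hK y hy]
  rw [Finset.mem_Icc]
  have h5 := abs_le.1 h3
  constructor
  · have : -(n : ℝ) ≤ ((v - w) i : ℝ) := by linarith [h5.1]
    exact_mod_cast this
  · have : ((v - w) i : ℝ) ≤ n := by linarith [h5.2]
    exact_mod_cast this

lemma exists_max (hR : R.det ≠ 0) (hTc : IsCompact T) :
    ∃ k, ∃ w ∈ C R B k, ∀ k', ∀ w' ∈ C R B k', (Nb R B T k' w').card ≤ (Nb R B T k w).card := by
  obtain ⟨M, hM⟩ := exists_bound (B := B) hR hTc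
  set S : Set ℕ := {n | ∃ k, ∃ w ∈ C R B k, (Nb R B T k w).card = n} with hS
  have hne : S.Nonempty := ⟨_, 0, 0, by simp [C], rfl⟩
  have hbdd : BddAbove S := ⟨M, by rintro n ⟨k, w, _, rfl⟩; exact hM k w⟩
  obtain ⟨k, w, hw, hkw⟩ := Nat.sSup_mem hne hbdd
  refine ⟨k, w, hw, fun k' w' hw' => ?_⟩
  rw [hkw]
  exact le_csSup hbdd ⟨k', w', hw', rfl⟩

lemma nb_eq (hR : R.det ≠ 0) {k : ℕ} {w : Fin d → ℤ} (hw : w ∈ C R B k)
    (hmax : ∀ k', ∀ w' ∈ C R B k', (Nb R B T k' w').card ≤ (Nb R B T k w).card)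
    (m : ℕ) (u : Fin d → ℤ) (hu : u ∈ C R B m) :
    ∀ x ∈ Nb R B T (m + k) (w + (R ^ k) *ᵥ u), ∃ v ∈ C R B k, x = v + (R ^ k) *ᵥ u := by
  classical
  have hsub : (Nb R B T k w).image (fun v => v + (R ^ k) *ᵥ u) ⊆
      Nb R B T (m + k) (w + (R ^ k) *ᵥ u) := by
    intro x hx
    obtain ⟨v, hv, rfl⟩ := Finset.mem_image.1 hx
    rw [Nb, Finset.mem_filter] at hv ⊢
    obtain ⟨hv1, y, hy, z, hz, hyz⟩ := hv
    refine ⟨(mem_C_add m k).2 ⟨u, hu, v, hv1, rfl⟩, y, hy, z, hz, ?_⟩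
    rw [← psi_comp hR, ← psi_comp hR, hyz]
  have hcard : ((Nb R B T k w).image (fun v => v + (R ^ k) *ᵥ u)).card = (Nb R B T k w).card :=
    Finset.card_image_of_injective _ (add_left_injective _)
  have heq := Finset.eq_of_subset_of_card_le hsub (by
    rw [hcard]
    exact hmax (m + k) _ ((mem_C_add m k).2 ⟨u, hu, w, hw, rfl⟩))
  intro x hx
  rw [← heq] at hx
  obtain ⟨v, hv, rfl⟩ := Finset.mem_image.1 hx
  rw [Nb, Finset.mem_filter] at hv
  exact ⟨v, hv.1, rfl⟩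

lemma disjoint_piece (hR : R.det ≠ 0)
    (hcard : ∀ k, (C R B k).card = B.card ^ k) (hT : T = ⋃ b ∈ B, psi R 1 b '' T)
    {k : ℕ} {w : Fin d → ℤ} (hw : w ∈ C R B k)
    (hmax : ∀ k', ∀ w' ∈ C R B k', (Nb R B T k' w').card ≤ (Nb R B T k w).card)
    (c : Fin d → ℤ) (hc : c ∈ B) (b : Fin d → ℤ) (hb : b ∈ B) (hcb : b ≠ c)
    (m : ℕ) (u : Fin d → ℤ) (hu : u ∈ C R B m) (x : Fin d → ℝ) (hx : x ∈ T) (y : Fin d → ℝ)
    (hy : y ∈ T) : psi R 1 c (psi R m u (psi R k w x)) ≠ psi R 1 b y := by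
  classical
  intro h
  obtain ⟨v, hv, z, hz, rfl⟩ := exists_piece hR hT (m + k) y hy
  obtain ⟨u', hu', w', hw', rfl⟩ := (mem_C_add m k).1 hv
  rw [← psi_comp hR m k u' w', psi_comp hR 1 m b u', psi_comp hR 1 m c u,
    psi_comp hR (1 + m) k, psi_comp hR (1 + m) k] at h
  have hu2 : u + (R ^ m) *ᵥ c ∈ C R B (1 + m) :=
    (mem_C_add 1 m).2 ⟨c, mem_C_one.2 hc, u, hu, rfl⟩
  have hu2' : u' + (R ^ m) *ᵥ b ∈ C R B (1 + m) :=
    (mem_C_add 1 m).2 ⟨b, mem_C_one.2 hb, u', hu', rfl⟩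
  have hmem : w' + (R ^ k) *ᵥ (u' + (R ^ m) *ᵥ b) ∈
      Nb R B T ((1 + m) + k) (w + (R ^ k) *ᵥ (u + (R ^ m) *ᵥ c)) := by
    rw [Nb, Finset.mem_filter]
    exact ⟨(mem_C_add (1 + m) k).2 ⟨_, hu2', w', hw', rfl⟩, z, hz, x, hx, h.symm⟩
  obtain ⟨v', hv', hveq⟩ := nb_eq hR hw hmax (1 + m) _ hu2 _ hmem
  have h1 := (unique_decomp hcard (1 + m) k _ hu2' _ hw' _ hu2 _ hv' hveq).1
  have h2 := (unique_decomp hcard 1 m b (mem_C_one.2 hb) u' hu' c (mem_C_one.2 hc) u hu h1).1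
  exact hcb h2

/-- A set avoided by all the pieces `psi m u (psi k w T)` is null. -/
lemma null_of_avoid [IsProbabilityMeasure μ] (hR : R.det ≠ 0) (hB : B.card ≠ 0)
    (hcard : ∀ k, (C R B k).card = B.card ^ k)
    (hform : ∀ k, μ = ((B.card ^ k : ℕ) : ℝ≥0∞)⁻¹ • ∑ c ∈ C R B k, μ.map (psi R k c))
    (hsupp : μ Tᶜ = 0) {k : ℕ} {w : Fin d → ℤ} (hw : w ∈ C R B k) :
    ∀ Y : Set (Fin d → ℝ), MeasurableSet Y →
      (∀ m, ∀ u ∈ C R B m, ∀ x ∈ T, psi R m u (psi R k w x) ∉ Y) → μ Y = 0 := by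
  classical
  set N : ℕ := B.card ^ k with hN
  have hN0 : N ≠ 0 := pow_ne_zero _ hB
  have hNE : (N : ℝ≥0∞) ≠ 0 := by exact_mod_cast hN0
  have hNT : (N : ℝ≥0∞) ≠ ⊤ := ENNReal.natCast_ne_top _
  set q : ℝ≥0∞ := ((N - 1 : ℕ) : ℝ≥0∞) * (N : ℝ≥0∞)⁻¹ with hq
  have hq1 : q < 1 := by
    rw [hq, ← div_eq_mul_inv]
    refine ENNReal.div_lt_of_lt_mul ?_
    rw [one_mul]
    exact_mod_cast Nat.sub_lt (Nat.pos_of_ne_zero hN0) one_pos
  have key : ∀ n : ℕ, ∀ Y : Set (Fin d → ℝ), MeasurableSet Y →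
      (∀ m, ∀ u ∈ C R B m, ∀ x ∈ T, psi R m u (psi R k w x) ∉ Y) → μ Y ≤ q ^ n := by
    intro n
    induction n with
    | zero =>
      intro Y _ _
      rw [pow_zero]
      exact prob_le_one
    | succ n ih =>
      intro Y hY hav
      have hval : μ Y = (N : ℝ≥0∞)⁻¹ * ∑ c ∈ C R B k, μ (psi R k c ⁻¹' Y) := by
        conv_lhs => rw [hform k]
        rw [Measure.smul_apply, smul_eq_mul, Measure.finsetSum_apply]
        congr 1
        exact Finset.sum_congr rfl fun c _ => Measure.map_apply (measurable_psi R k c) hY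
      have hzero : μ (psi R k w ⁻¹' Y) = 0 := by
        have hsub : psi R k w ⁻¹' Y ⊆ Tᶜ := by
          intro x hx hxT
          have := hav 0 0 (by simp [C]) x hxT
          rw [psi_zero] at this
          exact this hx
        exact measure_mono_null hsub hsupp
      have hothers : ∀ c ∈ (C R B k).erase w, μ (psi R k c ⁻¹' Y) ≤ q ^ n := by
        intro c hc
        refine ih _ ((measurable_psi R k c) hY) fun m u hu x hx hmem => ?_
        rw [mem_preimage, psi_comp hR k m] at hmem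
        exact hav (k + m) _ ((mem_C_add k m).2 ⟨c, Finset.mem_of_mem_erase hc, u, hu, rfl⟩) x hx hmem
      rw [hval, ← Finset.add_sum_erase _ _ hw, hzero, zero_add]
      calc (N : ℝ≥0∞)⁻¹ * ∑ c ∈ (C R B k).erase w, μ (psi R k c ⁻¹' Y)
          ≤ (N : ℝ≥0∞)⁻¹ * ∑ c ∈ (C R B k).erase w, q ^ n :=
            mul_le_mul_right (Finset.sum_le_sum hothers) _
        _ = q ^ (n + 1) := by
            rw [Finset.sum_const, Finset.card_erase_of_mem hw, hcard k, nsmul_eq_mul, pow_succ, hq]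
            ring
  intro Y hY hav
  have hlim := ENNReal.tendsto_pow_atTop_nhds_zero_of_lt_one hq1
  exact le_antisymm (ge_of_tendsto hlim (Eventually.of_forall fun n => key n Y hY hav)) bot_le

theorem main [IsProbabilityMeasure μ] (hsp : Spectral μ) (hR : R.det ≠ 0)
    (hlim : ∀ i j, Tendsto (fun k => (Ri R ^ k) i j) atTop (𝓝 0))
    (hμ : μ = ∑ b ∈ B, ((B.card : ℝ≥0∞)⁻¹) • μ.map (psi R 1 b))
    (hTc : IsCompact T) (hTne : T.Nonempty) (hT : T = ⋃ b ∈ B, psi R 1 b '' T) :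
    ∀ b ∈ B, ∀ b' ∈ B, b ≠ b' → μ (psi R 1 b '' T ∩ psi R 1 b' '' T) = 0 := by
  intro b hb b' hb' hbb'
  have hB := card_ne_zero' hμ
  have hcard := fun k => (level_formula hsp hR hlim hμ hTc hTne hT k).1
  have hform := fun k => (level_formula hsp hR hlim hμ hTc hTne hT k).2
  have hsupp := supp hR hlim hμ hTc hTne hT
  obtain ⟨k, w, hw, hmax⟩ := exists_max (B := B) hR hTc
  have hmeas : ∀ b, MeasurableSet (psi R 1 b '' T) := fun b =>
    (hTc.image (continuous_psi R 1 b)).isClosed.measurableSet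
  set X := psi R 1 b '' T ∩ psi R 1 b' '' T with hX
  have hXm : MeasurableSet X := (hmeas b).inter (hmeas b')
  rw [one_step hμ hXm]
  refine Finset.sum_eq_zero fun c hc => ?_
  have : μ (psi R 1 c ⁻¹' X) = 0 := by
    refine null_of_avoid hR hB hcard hform hsupp hw _ ((measurable_psi R 1 c) hXm) ?_
    intro m u hu x hx hmem
    rw [mem_preimage, hX] at hmem
    obtain ⟨⟨y, hy, hy2⟩, ⟨y', hy', hy2'⟩⟩ := hmem
    by_cases h : b = c
    · have h' : b' ≠ c := fun h2 => hbb' (h.trans h2.symm)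
      exact disjoint_piece hR hcard hT hw hmax c hc b' hb' h' m u hu x hx y' hy' hy2'.symm
    · exact disjoint_piece hR hcard hT hw hmax c hc b hb h m u hu x hx y hy hy2.symm
  rw [this, mul_zero]

end Pool.Agent.Y291.Ov
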