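import Pool.Agent.Y291.Ov.Iso

set_option autoImplicit false

open MeasureTheory Set Filter Topology
open scoped ENNReal

namespace Pool.Agent.Y291.Ov

variable {d : ℕ}

lemma exists_level {μ : Measure (Fin d → ℝ)} [IsProbabilityMeasure μ] (l : (Fin d → ℝ) → ℝ)
    (τ0 : ℝ) (hτ : μ {z | l z < τ0} = 0) (δ : ℝ) (hδ : 0 < δ) :
    ∃ t : ℝ, μ {z | l z < t} = 0 ∧ μ {z | l z < t + δ} ≠ 0 := by
  set S : Set ℝ := {t | μ {z | l z < t} = 0} with hS
  have hne : S.Nonempty := ⟨τ0, hτ⟩
  have hbdd : BddAbove S := by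
    by_contra hb
    have hall : ∀ n : ℕ, μ {z | l z < n} = 0 := by
      intro n
      obtain ⟨t, ht, hnt⟩ := not_bddAbove_iff.1 hb n
      exact measure_mono_null (fun z hz => lt_trans hz hnt) ht
    have huniv : (⋃ n : ℕ, {z : Fin d → ℝ | l z < n}) = univ := by
      rw [eq_univ_iff_forall]
      intro z
      obtain ⟨n, hn⟩ := exists_nat_gt (l z)
      exact mem_iUnion.2 ⟨n, hn⟩
    have h0 : μ (⋃ n : ℕ, {z : Fin d → ℝ | l z < n}) = 0 := measure_iUnion_null hall
    rw [huniv, measure_univ] at h0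
    exact one_ne_zero h0
  obtain ⟨t, ht, hlt⟩ := exists_lt_of_lt_csSup hne (show sSup S - δ < sSup S by linarith)
  refine ⟨t, ht, fun h => ?_⟩
  have := le_csSup hbdd (show t + δ ∈ S from h)
  linarith

lemma exists_gap {ι : Type*} (I : Finset ι) (s : ι → ℝ) (i0 : ι)
    (hmin : ∀ i ∈ I, i ≠ i0 → s i0 < s i) : ∃ δ : ℝ, 0 < δ ∧ ∀ i ∈ I, i ≠ i0 → s i0 + δ ≤ s i := by
  classical
  induction I using Finset.induction_on with
  | empty => exact ⟨1, one_pos, by simp⟩
  | insert j J hj ih =>
    obtain ⟨δ, h1, h2⟩ := ih (fun i hi hne => hmin i (Finset.mem_insert_of_mem hi) hne)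
    by_cases hji : j = i0
    · refine ⟨δ, h1, fun i hi hne => ?_⟩
      rcases Finset.mem_insert.1 hi with rfl | hi
      · exact absurd hji hne
      · exact h2 i hi hne
    · have h3 := hmin j (Finset.mem_insert_self _ _) hji
      refine ⟨min δ (s j - s i0), lt_min h1 (by linarith), fun i hi hne => ?_⟩
      rcases Finset.mem_insert.1 hi with rfl | hi
      · linarith [min_le_right δ (s i - s i0)]
      · linarith [min_le_left δ (s j - s i0), h2 i hi hne]

/-- **Key lemma.** If `μ` is spectral and equals the average of the images of `μ` under the maps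
`z ↦ T z + a i`, and if the piece `i0` is strictly extreme with respect to a functional, then all the
translations `a i` are distinct. -/
lemma injective_of_spectral {μ : Measure (Fin d → ℝ)} [IsProbabilityMeasure μ] (h : Spectral μ)
    {ι : Type*} (I : Finset ι) (T : (Fin d → ℝ) → (Fin d → ℝ)) (hT : Measurable T)
    (a : ι → Fin d → ℝ)
    (hμ : μ = (I.card : ℝ≥0∞)⁻¹ • ∑ i ∈ I, μ.map (fun z => T z + a i))
    (L l : (Fin d → ℝ) → ℝ) (hL : Measurable L) (hl : Measurable l) (s : ι → ℝ)
    (hLs : ∀ i ∈ I, ∀ z, L (T z + a i) = l z + s i)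
    (τ0 : ℝ) (hτ : μ {z | l z < τ0} = 0)
    (i0 : ι) (hi0 : i0 ∈ I) (hmin : ∀ i ∈ I, i ≠ i0 → s i0 < s i) :
    ∀ i1 ∈ I, ∀ i2 ∈ I, a i1 = a i2 → i1 = i2 := by
  classical
  intro i1 hi1 i2 hi2 h12
  by_contra hne
  obtain ⟨δ, hδ, hgap⟩ := exists_gap I s i0 hmin
  obtain ⟨t, ht0, ht1⟩ := exists_level l τ0 hτ δ hδ
  have hn0 : I.card ≠ 0 := Finset.card_ne_zero.2 ⟨i0, hi0⟩
  have hnE : (I.card : ℝ≥0∞) ≠ 0 := by exact_mod_cast hn0
  have hnT : (I.card : ℝ≥0∞) ≠ ⊤ := ENNReal.natCast_ne_top _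
  set n : ℝ := (I.card : ℝ) with hn
  have hnpos : 0 < n := by rw [hn]; exact_mod_cast Nat.pos_of_ne_zero hn0
  have hψ : ∀ i, Measurable (fun z : Fin d → ℝ => T z + a i) := fun i => hT.add_const _
  -- value of μ on a measurable set
  have hval : ∀ A : Set (Fin d → ℝ), MeasurableSet A →
      (I.card : ℝ≥0∞) * μ A = ∑ i ∈ I, μ ((fun z => T z + a i) ⁻¹' A) := by
    intro A hA
    conv_lhs => rw [hμ]
    rw [Measure.smul_apply, smul_eq_mul, ← mul_assoc, ENNReal.mul_inv_cancel hnE hnT, one_mul,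
      Measure.finsetSum_apply]
    exact Finset.sum_congr rfl fun i _ => Measure.map_apply (hψ i) hA
  set Z : Set (Fin d → ℝ) := {z | l z < t + δ} with hZ
  have hZm : MeasurableSet Z := measurableSet_lt hl measurable_const
  set E : Set (Fin d → ℝ) := {x | L x < t + δ + s i0} with hE
  have hEm : MeasurableSet E := measurableSet_lt hL measurable_const
  have hpre0 : (fun z => T z + a i0) ⁻¹' E = Z := by
    ext z
    simp only [hE, hZ, mem_preimage, mem_ofPred_eq, hLs i0 hi0]
    constructor <;> intro h <;> linarith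
  have hpre : ∀ i ∈ I, i ≠ i0 → μ ((fun z => T z + a i) ⁻¹' E) = 0 := by
    intro i hi hne
    refine measure_mono_null (fun z hz => ?_) ht0
    simp only [hE, mem_preimage, mem_ofPred_eq, hLs i hi] at hz
    have := hgap i hi hne
    simp only [mem_ofPred_eq]
    linarith
  -- μ restricted to E
  have hresE : ∀ A : Set (Fin d → ℝ), MeasurableSet A →
      (I.card : ℝ≥0∞) * μ (A ∩ E) = μ ((fun z => T z + a i0) ⁻¹' A ∩ Z) := by
    intro A hA
    rw [hval _ (hA.inter hEm), ← Finset.add_sum_erase I _ hi0, Finset.sum_eq_zero, add_zero,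
      preimage_inter, hpre0]
    intro i hi
    exact measure_mono_null (fun z hz => hz.2) (hpre i (Finset.mem_of_mem_erase hi)
      (Finset.ne_of_mem_erase hi))
  set ν0 : Measure (Fin d → ℝ) := (μ.restrict Z).map (fun z => T z + a i0) with hν0
  have hν0E : ν0 = (I.card : ℝ≥0∞) • μ.restrict E := by
    ext A hA
    rw [hν0, Measure.map_apply (hψ i0) hA, Measure.restrict_apply (hψ i0 hA), Measure.smul_apply,
      Measure.restrict_apply hA, smul_eq_mul, hresE A hA]
  set σ : Measure (Fin d → ℝ) := (μ.restrict Z).map (fun z => T z + a i1) with hσ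
  have hσle : ∀ A : Set (Fin d → ℝ), MeasurableSet A → 2 * σ A ≤ (I.card : ℝ≥0∞) * μ A := by
    intro A hA
    have h1 : σ A ≤ μ ((fun z => T z + a i1) ⁻¹' A) := by
      rw [hσ, Measure.map_apply (hψ i1) hA]
      exact Measure.restrict_apply_le _ _
    have h2 : 2 * μ ((fun z => T z + a i1) ⁻¹' A) ≤ (I.card : ℝ≥0∞) * μ A := by
      rw [hval A hA, ← Finset.add_sum_erase I _ hi1,
        ← Finset.add_sum_erase (I.erase i1) _ (Finset.mem_erase.2 ⟨Ne.symm hne, hi2⟩)]
      have h3 : μ ((fun z => T z + a i2) ⁻¹' A) = μ ((fun z => T z + a i1) ⁻¹' A) := by rw [h12]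
      rw [h3, two_mul, ← add_assoc]
      exact le_self_add
    exact le_trans (mul_le_mul_right h1 _) h2
  -- finite measures
  have hσfin : IsFiniteMeasure σ := by rw [hσ]; infer_instance
  have hac : σ ≪ μ := by
    refine Measure.AbsolutelyContinuous.mk fun A hA h0 => ?_
    have := hσle A hA
    rw [h0, mul_zero] at this
    simpa using this
  have hld : σ.HaveLebesgueDecomposition μ :=
    Measure.haveLebesgueDecomposition_of_sigmaFinite σ μ
  -- density bound
  have hdens : ∀ᵐ x ∂μ, σ.rnDeriv μ x ≤ (I.card : ℝ≥0∞) / 2 := by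
    refine ae_le_of_forall_setLIntegral_le_of_sigmaFinite (Measure.measurable_rnDeriv σ μ) ?_
    intro A hA _
    rw [setLIntegral_const]
    refine (Measure.setLIntegral_rnDeriv_le A).trans ?_
    have h1 := hσle A hA
    rw [ENNReal.div_eq_inv_mul, mul_assoc]
    calc σ A = 2⁻¹ * (2 * σ A) := by
          rw [← mul_assoc, ENNReal.inv_mul_cancel (by norm_num) (by norm_num), one_mul]
      _ ≤ 2⁻¹ * ((I.card : ℝ≥0∞) * μ A) := mul_le_mul_right h1 _
  set g : (Fin d → ℝ) → ℝ := fun x => (σ.rnDeriv μ x).toReal with hg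
  have hgm : Measurable g := (Measure.measurable_rnDeriv σ μ).ennreal_toReal
  have hg0 : ∀ x, 0 ≤ g x := fun x => ENNReal.toReal_nonneg
  have hgle : ∀ᵐ x ∂μ, g x ≤ n / 2 := by
    filter_upwards [hdens] with x hx
    have h2 : ((I.card : ℝ≥0∞) / 2).toReal = n / 2 := by
      rw [ENNReal.toReal_div]; simp [hn]
    rw [hg, ← h2]
    exact ENNReal.toReal_mono (ENNReal.div_ne_top hnT (by norm_num)) hx
  -- the two functions
  set F : (Fin d → ℝ) → ℂ := E.indicator (fun _ => (n : ℂ)) with hF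
  set G : (Fin d → ℝ) → ℂ := fun x => (g x : ℂ) with hG
  have hFL : MemLp F 2 μ := by
    refine MemLp.of_bound (C := n) ?_ (ae_of_all _ fun x => ?_)
    · exact (measurable_const.indicator hEm).aestronglyMeasurable
    · rw [hF]
      refine (norm_indicator_le_norm_self _ _).trans ?_
      simp [abs_of_pos hnpos]
  have hGL : MemLp G 2 μ := by
    refine MemLp.of_bound (C := n / 2) ?_ ?_
    · exact (Complex.measurable_ofReal.comp hgm).aestronglyMeasurable
    · filter_upwards [hgle] with x hx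
      rw [hG]
      simp only [Complex.norm_real, Real.norm_eq_abs, abs_of_nonneg (hg0 x)]
      exact hx
  have hcm : ∀ l' : Fin d → ℝ, Continuous (fun x => (starRingEnd ℂ) (ex l' x)) := fun l' =>
    Complex.continuous_conj.comp (continuous_ex l')
  have hI1 : ∀ l' : Fin d → ℝ, ∫ x, (starRingEnd ℂ) (ex l' x) * F x ∂μ =
      ∫ z in Z, (starRingEnd ℂ) (ex l' (T z + a i0)) ∂μ := by
    intro l'
    have h1 : ∫ x, (starRingEnd ℂ) (ex l' x) ∂ν0 =
        ∫ z in Z, (starRingEnd ℂ) (ex l' (T z + a i0)) ∂μ := by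
      rw [hν0, integral_map (hψ i0).aemeasurable (hcm l').aestronglyMeasurable]
    rw [← h1, hν0E, integral_smul_measure]
    have h2 : (fun x => (starRingEnd ℂ) (ex l' x) * F x) =
        E.indicator (fun x => (starRingEnd ℂ) (ex l' x) * (n : ℂ)) := by
      funext x
      by_cases hx : x ∈ E
      · simp [hF, hx]
      · simp [hF, hx]
    rw [h2, integral_indicator hEm, integral_mul_const]
    simp [hn, mul_comm]
  have hI2 : ∀ l' : Fin d → ℝ, ∫ x, (starRingEnd ℂ) (ex l' x) * G x ∂μ =
      (starRingEnd ℂ) (ex l' (a i1 - a i0)) *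
        ∫ z in Z, (starRingEnd ℂ) (ex l' (T z + a i0)) ∂μ := by
    intro l'
    have h1 : ∫ x, (starRingEnd ℂ) (ex l' x) ∂σ =
        ∫ z in Z, (starRingEnd ℂ) (ex l' (T z + a i1)) ∂μ := by
      rw [hσ, integral_map (hψ i1).aemeasurable (hcm l').aestronglyMeasurable]
    have h2 : ∫ x, (starRingEnd ℂ) (ex l' x) * G x ∂μ = ∫ x, (starRingEnd ℂ) (ex l' x) ∂σ := by
      rw [← integral_rnDeriv_smul hac]
      refine integral_congr_ae (ae_of_all _ fun x => ?_)
      simp [hG, hg, mul_comm]
    rw [h2, h1, ← integral_const_mul]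
    refine integral_congr_ae (ae_of_all _ fun z => ?_)
    simp only
    rw [← map_mul, ← ex_add]
    congr 2
    abel
  have hnorm := norm_eq_of_spectral h F G hFL hGL (fun l' => by
    rw [hI1, hI2, norm_mul, RCLike.norm_conj, norm_ex, one_mul])
  -- evaluate the norms
  have hμE : n * μ.real E = μ.real Z := by
    have h1 := hresE univ MeasurableSet.univ
    simp only [univ_inter, preimage_univ] at h1
    have h2 := congrArg ENNReal.toReal h1
    rw [ENNReal.toReal_mul] at h2
    simpa [hn, Measure.real] using h2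
  have hFn : ∫ x, ‖F x‖ ^ 2 ∂μ = n * μ.real Z := by
    have h2 : (fun x => ‖F x‖ ^ 2) = E.indicator (fun _ => n ^ 2) := by
      funext x
      by_cases hx : x ∈ E
      · simp [hF, hx]
      · simp [hF, hx]
    rw [h2, integral_indicator hEm, setIntegral_const, smul_eq_mul, ← hμE]
    ring
  have hσu : ∫ x, g x ∂μ = μ.real Z := by
    rw [hg, Measure.integral_toReal_rnDeriv hac, hσ, Measure.real, Measure.map_apply (hψ i1)
      MeasurableSet.univ, preimage_univ, Measure.restrict_apply MeasurableSet.univ, univ_inter]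
    rfl
  have hgint : Integrable g μ := by
    refine Integrable.of_bound hgm.aestronglyMeasurable (n / 2) ?_
    filter_upwards [hgle] with x hx
    rwa [Real.norm_eq_abs, abs_of_nonneg (hg0 x)]
  have hGn : ∫ x, ‖G x‖ ^ 2 ∂μ ≤ n / 2 * μ.real Z := by
    rw [← hσu, ← integral_const_mul]
    refine integral_mono_ae ?_ (hgint.const_mul _) ?_
    · exact hGL.integrable_norm_pow (by norm_num)
    · filter_upwards [hgle] with x hx
      simp only [hG, Complex.norm_real, Real.norm_eq_abs, abs_of_nonneg (hg0 x)]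
      nlinarith [hg0 x]
  have hZpos : 0 < μ.real Z := by
    rw [Measure.real]
    exact ENNReal.toReal_pos ht1 (measure_ne_top _ _)
  rw [hFn] at hnorm
  rw [← hnorm] at hGn
  nlinarith

end Pool.Agent.Y291.Ov
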