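import Mathlib

set_option autoImplicit false

open MeasureTheory Set Filter Topology
open scoped ENNReal

namespace Pool.Agent.Y291.Ov

variable {d : ℕ}

/-- the exponential with frequency `l` -/
noncomputable def ex (l x : Fin d → ℝ) : ℂ :=
  Complex.exp (2 * Real.pi * Complex.I * ((∑ i, l i * x i : ℝ) : ℂ))

lemma ex_add (l x y : Fin d → ℝ) : ex l (x + y) = ex l x * ex l y := by
  unfold ex
  rw [← Complex.exp_add]
  congr 1
  have : ∑ i, l i * (x + y) i = ∑ i, l i * x i + ∑ i, l i * y i := by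
    rw [← Finset.sum_add_distrib]
    exact Finset.sum_congr rfl fun i _ => by simp [mul_add]
  rw [this]; push_cast; ring

lemma norm_ex (l x : Fin d → ℝ) : ‖ex l x‖ = 1 := by
  unfold ex
  rw [show 2 * (Real.pi : ℂ) * Complex.I * ((∑ i, l i * x i : ℝ) : ℂ) =
    ((2 * Real.pi * ∑ i, l i * x i : ℝ) : ℂ) * Complex.I by push_cast; ring]
  exact Complex.norm_exp_ofReal_mul_I _

lemma continuous_ex (l : Fin d → ℝ) : Continuous (ex l) := by
  unfold ex
  fun_prop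

/-- `μ` has an orthonormal basis of exponentials -/
def Spectral (μ : Measure (Fin d → ℝ)) : Prop :=
  ∃ (Λ : Set (Fin d → ℝ)) (e : Λ → Lp ℂ 2 μ),
      (∀ l : Λ, (e l : (Fin d → ℝ) → ℂ) =ᵐ[μ] fun x => ex l x) ∧
      Orthonormal ℂ e ∧
      (Submodule.span ℂ (Set.range e)).topologicalClosure = ⊤

/-- two `L²` functions whose Fourier transforms have equal moduli have equal norms -/
lemma norm_eq_of_spectral {μ : Measure (Fin d → ℝ)} (h : Spectral μ)
    (F G : (Fin d → ℝ) → ℂ) (hF : MemLp F 2 μ) (hG : MemLp G 2 μ)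
    (hFG : ∀ l : Fin d → ℝ, ‖∫ x, (starRingEnd ℂ) (ex l x) * F x ∂μ‖ =
      ‖∫ x, (starRingEnd ℂ) (ex l x) * G x ∂μ‖) :
    ∫ x, ‖F x‖ ^ 2 ∂μ = ∫ x, ‖G x‖ ^ 2 ∂μ := by
  obtain ⟨Λ, e, he, ho, hs⟩ := h
  let b : HilbertBasis Λ ℂ (Lp ℂ 2 μ) := HilbertBasis.mk ho hs.ge
  have hb : ∀ l, b l = e l := fun l => by simp [b]
  have hc : ∀ (H : (Fin d → ℝ) → ℂ) (hH : MemLp H 2 μ) (l : Λ),
      b.repr (hH.toLp H) l = ∫ x, (starRingEnd ℂ) (ex (l : Fin d → ℝ) x) * H x ∂μ := by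
    intro H hH l
    rw [HilbertBasis.repr_apply_apply, hb, L2.inner_def]
    apply integral_congr_ae
    filter_upwards [he l, hH.coeFn_toLp] with x h1 h2
    rw [h1, h2]
    simp [mul_comm]
  have hn : ‖b.repr (hF.toLp F)‖ = ‖b.repr (hG.toLp G)‖ := by
    rw [lp.norm_eq_tsum_rpow (by norm_num), lp.norm_eq_tsum_rpow (by norm_num)]
    congr 1
    apply tsum_congr
    intro l
    rw [hc F hF l, hc G hG l, hFG]
  rw [LinearIsometryEquiv.norm_map, LinearIsometryEquiv.norm_map] at hn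
  have hsq : ∀ (H : (Fin d → ℝ) → ℂ) (hH : MemLp H 2 μ),
      ‖hH.toLp H‖ ^ 2 = ∫ x, ‖H x‖ ^ 2 ∂μ := by
    intro H hH
    have h1 : (‖hH.toLp H‖ : ℝ) ^ 2 = RCLike.re (inner ℂ (hH.toLp H) (hH.toLp H)) := by
      rw [inner_self_eq_norm_sq_to_K]
      norm_cast
    rw [h1, L2.inner_def]
    have h2 : ∫ x, inner ℂ ((hH.toLp H) x) ((hH.toLp H) x) ∂μ = ((∫ x, ‖H x‖ ^ 2 ∂μ : ℝ) : ℂ) := by
      rw [← integral_complex_ofReal]
      apply integral_congr_ae
      filter_upwards [hH.coeFn_toLp] with x hx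
      rw [hx, inner_self_eq_norm_sq_to_K]
      norm_cast
    rw [h2]
    simp
  rw [← hsq F hF, ← hsq G hG, hn]

end Pool.Agent.Y291.Ov
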