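import Pool.Agent.Y291.Ov.Supp

set_option autoImplicit false

open MeasureTheory Set Filter Topology Matrix
open scoped ENNReal NNReal

namespace Pool.Agent.Y291.Ov

variable {d : ℕ} {R : Matrix (Fin d) (Fin d) ℤ} {B : Finset (Fin d → ℤ)}
  {μ : Measure (Fin d → ℝ)} {T : Set (Fin d → ℝ)}

/-- the linear functional `z ↦ ∑ z i θ^i` -/
def lf (θ : ℝ) (z : Fin d → ℝ) : ℝ := ∑ i, z i * θ ^ (i : ℕ)

lemma lf_add (θ : ℝ) (x y : Fin d → ℝ) : lf θ (x + y) = lf θ x + lf θ y := by
  simp [lf, add_mul, Finset.sum_add_distrib]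

lemma continuous_lf (θ : ℝ) : Continuous (lf θ : (Fin d → ℝ) → ℝ) := by
  unfold lf
  fun_prop

lemma lf_inj {θ : ℝ} (hθ : Transcendental ℤ θ) {a b : Fin d → ℤ}
    (h : lf θ (cst a) = lf θ (cst b)) : a = b := by
  classical
  set p : Polynomial ℤ := ∑ i : Fin d, Polynomial.monomial (i : ℕ) (a i - b i) with hp
  have hev : Polynomial.aeval θ p = 0 := by
    rw [hp, map_sum]
    have h1 : ∀ i : Fin d, Polynomial.aeval θ (Polynomial.monomial (i : ℕ) (a i - b i)) =
        cst a i * θ ^ (i : ℕ) - cst b i * θ ^ (i : ℕ) := by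
      intro i
      rw [Polynomial.aeval_monomial]
      simp [cst, sub_mul]
    rw [Finset.sum_congr rfl fun i _ => h1 i, Finset.sum_sub_distrib]
    exact sub_eq_zero.2 h
  have hp0 : p = 0 := by
    by_contra hne
    exact hθ ⟨p, hne, hev⟩
  funext j
  have h2 : p.coeff (j : ℕ) = a j - b j := by
    rw [hp, Polynomial.finsetSum_coeff]
    rw [Finset.sum_eq_single j]
    · rw [Polynomial.coeff_monomial, if_pos rfl]
    · intro i _ hij
      rw [Polynomial.coeff_monomial, if_neg]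
      intro h
      exact hij (Fin.ext h)
    · intro h
      exact absurd (Finset.mem_univ j) h
  rw [hp0, Polynomial.coeff_zero] at h2
  linarith

lemma exists_strict_min {ι : Type*} (S : Finset ι) (hS : S.Nonempty) (f : ι → ℝ)
    (hf : ∀ a ∈ S, ∀ b ∈ S, f a = f b → a = b) : ∃ a ∈ S, ∀ b ∈ S, b ≠ a → f a < f b := by
  obtain ⟨a, ha, hmin⟩ := Finset.exists_min_image S f hS
  refine ⟨a, ha, fun b hb hne => lt_of_le_of_ne (hmin b hb) fun h => hne (hf a ha b hb h).symm⟩

lemma C_nonempty (hB : B.Nonempty) (k : ℕ) : (C R B k).Nonempty := by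
  induction k with
  | zero => exact ⟨0, by simp [C]⟩
  | succ k ih =>
    obtain ⟨b, hb⟩ := hB
    obtain ⟨c, hc⟩ := ih
    exact ⟨_, mem_C_succ.2 ⟨b, hb, c, hc, rfl⟩⟩

lemma map_finset_sum_aux' {ι : Type*} {f : (Fin d → ℝ) → (Fin d → ℝ)} (hf : Measurable f)
    (S : Finset ι) (m : ι → Measure (Fin d → ℝ)) :
    Measure.map f (∑ c ∈ S, m c) = ∑ c ∈ S, (m c).map f := by
  classical
  induction S using Finset.induction_on with
  | empty => simp
  | insert a S ha ih =>
    rw [Finset.sum_insert ha, Finset.sum_insert ha, Measure.map_add _ _ hf, ih]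

lemma level_formula [IsProbabilityMeasure μ] (hsp : Spectral μ) (hR : R.det ≠ 0)
    (hlim : ∀ i j, Tendsto (fun k => (Ri R ^ k) i j) atTop (𝓝 0))
    (hμ : μ = ∑ b ∈ B, ((B.card : ℝ≥0∞)⁻¹) • μ.map (psi R 1 b))
    (hTc : IsCompact T) (hTne : T.Nonempty) (hT : T = ⋃ b ∈ B, psi R 1 b '' T) (k : ℕ) :
    (C R B k).card = B.card ^ k ∧
      μ = ((B.card ^ k : ℕ) : ℝ≥0∞)⁻¹ • ∑ c ∈ C R B k, μ.map (psi R k c) := by
  classical
  have hB := card_ne_zero' hμ
  have hBne : B.Nonempty := Finset.card_ne_zero.1 hB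
  have hsupp := supp hR hlim hμ hTc hTne hT
  have hθ : Transcendental ℤ (liouvilleNumber 2) := transcendental_liouvilleNumber le_rfl
  set θ : ℝ := liouvilleNumber 2 with hθd
  obtain ⟨x0, hx0, hmin0⟩ := hTc.exists_isMinOn hTne (continuous_lf θ).continuousOn
  have hτ : μ {z : Fin d → ℝ | lf θ z < lf θ x0} = 0 := by
    have hsub : {z : Fin d → ℝ | lf θ z < lf θ x0} ⊆ Tᶜ := by
      intro z hz hzT
      have h1 : lf θ x0 ≤ lf θ z := hmin0 hzT
      have h2 : lf θ z < lf θ x0 := hz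
      linarith
    exact measure_mono_null hsub hsupp
  induction k with
  | zero =>
    refine ⟨by simp [C], ?_⟩
    have h1 : psi R 0 0 = id := funext fun x => psi_zero R x
    simp [C, h1]
  | succ k ih =>
    obtain ⟨hcard, hform⟩ := ih
    set I : Finset ((Fin d → ℤ) × (Fin d → ℤ)) := B ×ˢ C R B k with hI
    have hIcard : I.card = B.card ^ (k + 1) := by
      rw [hI, Finset.card_product, hcard, pow_succ']
    have hmap : ∀ b c, (fun z => (Ri R ^ (k + 1)) *ᵥ z + (Ri R ^ (k + 1)) *ᵥ cst (c + (R ^ k) *ᵥ b)) =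
        psi R 1 b ∘ psi R k c := by
      intro b c
      funext z
      rw [Function.comp_apply, psi_comp hR, add_comm 1 k, ← Matrix.mulVec_add]
      rfl
    have hform2 : μ = (I.card : ℝ≥0∞)⁻¹ • ∑ i ∈ I, μ.map (fun z => (Ri R ^ (k + 1)) *ᵥ z +
        (Ri R ^ (k + 1)) *ᵥ cst (i.2 + (R ^ k) *ᵥ i.1)) := by
      have h1 : ∀ b ∈ B, μ.map (psi R 1 b) = ((B.card ^ k : ℕ) : ℝ≥0∞)⁻¹ •
          ∑ c ∈ C R B k, μ.map (psi R 1 b ∘ psi R k c) := by
        intro b _
        conv_lhs => rw [hform]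
        rw [Measure.map_smul, map_finset_sum_aux' (measurable_psi R 1 b)]
        congr 1
        refine Finset.sum_congr rfl fun c _ => ?_
        rw [Measure.map_map (measurable_psi R 1 b) (measurable_psi R k c)]
      conv_lhs => rw [hμ, Finset.sum_congr rfl fun b hb => by rw [h1 b hb]]
      rw [hI, Finset.sum_product, ← hI, hIcard, Finset.smul_sum]
      refine Finset.sum_congr rfl fun b _ => ?_
      rw [smul_smul]
      congr 1
      · rw [pow_succ' B.card k, Nat.cast_mul, ENNReal.mul_inv]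
        · right; exact ENNReal.natCast_ne_top _
        · left; exact ENNReal.natCast_ne_top _
      · refine Finset.sum_congr rfl fun c _ => ?_
        rw [hmap]
    have hinj : ∀ i1 ∈ I, ∀ i2 ∈ I,
        (Ri R ^ (k + 1)) *ᵥ cst (i1.2 + (R ^ k) *ᵥ i1.1) =
          (Ri R ^ (k + 1)) *ᵥ cst (i2.2 + (R ^ k) *ᵥ i2.1) → i1 = i2 := by
      obtain ⟨b0, hb0, hb0min⟩ := exists_strict_min B hBne (fun b => lf θ (cst ((R ^ k) *ᵥ b)))
        (fun a _ b _ h => mulVec_pow_injective hR k (lf_inj hθ h))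
      obtain ⟨c0, hc0, hc0min⟩ := exists_strict_min (C R B k) (C_nonempty hBne k)
        (fun c => lf θ (cst c)) (fun a _ b _ h => lf_inj hθ h)
      refine injective_of_spectral hsp I (fun z => (Ri R ^ (k + 1)) *ᵥ z) (measurable_mulVec _)
        (fun i => (Ri R ^ (k + 1)) *ᵥ cst (i.2 + (R ^ k) *ᵥ i.1)) hform2
        (fun x => lf θ (((R.map (Int.castRingHom ℝ)) ^ (k + 1)) *ᵥ x)) (lf θ)
        ((continuous_lf θ).measurable.comp (measurable_mulVec _)) (continuous_lf θ).measurable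
        (fun i => lf θ (cst (i.2 + (R ^ k) *ᵥ i.1))) ?_ (lf θ x0) hτ (b0, c0)
        (Finset.mem_product.2 ⟨hb0, hc0⟩) ?_
      · intro i _ z
        rw [← Matrix.mulVec_add, Matrix.mulVec_mulVec, mul_Ri_pow hR, Matrix.one_mulVec, lf_add]
      · intro i hi hne
        have hi' := Finset.mem_product.1 hi
        simp only [cst_add, lf_add]
        have hb1 : lf θ (cst ((R ^ k) *ᵥ b0)) ≤ lf θ (cst ((R ^ k) *ᵥ i.1)) := by
          by_cases h : i.1 = b0
          · rw [h]
          · exact (hb0min _ hi'.1 h).le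
        have hc1 : lf θ (cst c0) ≤ lf θ (cst i.2) := by
          by_cases h : i.2 = c0
          · rw [h]
          · exact (hc0min _ hi'.2 h).le
        by_cases h : i.1 = b0
        · have h2 : i.2 ≠ c0 := fun h2 => hne (Prod.ext h h2)
          have := hc0min _ hi'.2 h2
          linarith
        · have := hb0min _ hi'.1 h
          linarith
    have hinj2 : Set.InjOn (fun i : (Fin d → ℤ) × (Fin d → ℤ) => i.2 + (R ^ k) *ᵥ i.1) I := by
      intro i1 h1 i2 h2 h
      refine hinj i1 h1 i2 h2 ?_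
      have h' : i1.2 + (R ^ k) *ᵥ i1.1 = i2.2 + (R ^ k) *ᵥ i2.1 := h
      rw [h']
    have hCim : C R B (k + 1) = I.image (fun i => i.2 + (R ^ k) *ᵥ i.1) := by
      ext x
      rw [mem_C_succ, Finset.mem_image]
      constructor
      · rintro ⟨b, hb, c, hc, rfl⟩
        exact ⟨(b, c), Finset.mem_product.2 ⟨hb, hc⟩, rfl⟩
      · rintro ⟨i, hi, rfl⟩
        have hi' := Finset.mem_product.1 hi
        exact ⟨i.1, hi'.1, i.2, hi'.2, rfl⟩
    refine ⟨?_, ?_⟩
    · rw [hCim, Finset.card_image_of_injOn hinj2, hIcard]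
    · rw [hCim, Finset.sum_image hinj2, ← hIcard]
      conv_lhs => rw [hform2]
      congr 1
      refine Finset.sum_congr rfl fun i _ => ?_
      rw [hmap]
      congr 1
      funext z
      rw [Function.comp_apply, psi_comp hR, add_comm 1 k]

end Pool.Agent.Y291.Ov
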