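import Mathlib

set_option autoImplicit false

open MeasureTheory Set Filter Topology Matrix
open scoped ENNReal NNReal

namespace Pool.Agent.Y291.Ov

variable {d : ℕ}

attribute [local instance] Matrix.linftyOpNormedRing Matrix.linftyOpNormedAlgebra

lemma pow_tendsto_complex (M : Matrix (Fin d) (Fin d) ℂ)
    (hM : ∀ z : ℂ, M.charpoly.IsRoot z → 1 < ‖z‖) :
    IsUnit M.det ∧ Tendsto (fun k : ℕ => ‖M⁻¹ ^ k‖) atTop (𝓝 0) := by
  rcases Nat.eq_zero_or_pos d with rfl | hd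
  · refine ⟨by simp, ?_⟩
    have : ∀ k : ℕ, ‖M⁻¹ ^ k‖ = 0 := by
      intro k
      rw [show M⁻¹ ^ k = 0 from Subsingleton.elim _ _, norm_zero]
    rw [funext this]
    exact tendsto_const_nhds
  have : Nonempty (Fin d) := ⟨⟨0, hd⟩⟩
  have h0 : (0 : ℂ) ∉ spectrum ℂ M := by
    rw [Matrix.mem_spectrum_iff_isRoot_charpoly]
    intro h
    have := hM 0 h
    rw [norm_zero] at this
    linarith
  have hu : IsUnit M := by
    rw [spectrum.zero_notMem_iff] at h0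
    exact h0
  have hdet : IsUnit M.det := (Matrix.isUnit_iff_isUnit_det M).1 hu
  refine ⟨hdet, ?_⟩
  obtain ⟨u, hu'⟩ := hu
  have hinv : (M⁻¹ : Matrix (Fin d) (Fin d) ℂ) = ((u⁻¹ : (Matrix (Fin d) (Fin d) ℂ)ˣ) : Matrix (Fin d) (Fin d) ℂ) := by
    rw [← hu', Matrix.coe_units_inv]
  have hspec : ∀ z ∈ spectrum ℂ (M⁻¹), ‖z‖₊ < 1 := by
    intro z hz
    rw [hinv] at hz
    have hz0 : z ≠ 0 := spectrum.ne_zero_of_mem_of_unit hz
    have h1 : z⁻¹ ∈ spectrum ℂ (u : Matrix (Fin d) (Fin d) ℂ) := by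
      have h2 := spectrum.inv_mem_iff (r := (Units.mk0 z hz0)⁻¹) (a := u)
      rw [inv_inv] at h2
      exact h2.2 hz
    rw [hu', Matrix.mem_spectrum_iff_isRoot_charpoly] at h1
    have h2 := hM _ h1
    rw [norm_inv] at h2
    have h3 : 0 < ‖z‖ := norm_pos_iff.2 hz0
    have h4 : ‖z‖ < 1 := by
      rw [lt_inv_comm₀ one_pos h3] at h2
      simpa using h2
    exact_mod_cast h4
  have hrad : spectralRadius ℂ (M⁻¹) < (1 : ℝ≥0) := spectrum.spectralRadius_lt_of_forall_lt _ hspec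
  have hG := spectrum.pow_nnnorm_pow_one_div_tendsto_nhds_spectralRadius (M⁻¹)
  obtain ⟨r, hr1, hr2⟩ := ENNReal.lt_iff_exists_nnreal_btwn.1 hrad
  have hr2' : r < 1 := by exact_mod_cast hr2
  have hev := hG.eventually_lt_const hr1
  have hle : ∀ᶠ k : ℕ in atTop, ‖M⁻¹ ^ k‖ ≤ (r : ℝ) ^ k := by
    filter_upwards [hev, eventually_gt_atTop 0] with k hk hk0
    have hk0' : (k : ℝ) ≠ 0 := by exact_mod_cast hk0.ne'
    have h1 : ((‖M⁻¹ ^ k‖₊ : ℝ≥0∞) ^ (1 / (k : ℝ))) ^ (k : ℝ) ≤ (r : ℝ≥0∞) ^ (k : ℝ) :=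
      ENNReal.rpow_le_rpow hk.le (by positivity)
    rw [← ENNReal.rpow_mul, one_div, inv_mul_cancel₀ hk0', ENNReal.rpow_one, ENNReal.rpow_natCast] at h1
    have h2 : ‖M⁻¹ ^ k‖₊ ≤ r ^ k := by exact_mod_cast h1
    exact_mod_cast h2
  refine squeeze_zero' (Eventually.of_forall fun k => norm_nonneg _) hle ?_
  exact tendsto_pow_atTop_nhds_zero_of_lt_one r.2 (by exact_mod_cast hr2')

/-- the real inverse matrix -/
noncomputable def Ri (R : Matrix (Fin d) (Fin d) ℤ) : Matrix (Fin d) (Fin d) ℝ :=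
  (R.map (Int.castRingHom ℝ))⁻¹

lemma real_facts (R : Matrix (Fin d) (Fin d) ℤ)
    (hR : ∀ z : ℂ, (R.map (Int.castRingHom ℂ)).charpoly.IsRoot z → 1 < ‖z‖) :
    R.det ≠ 0 ∧ ∀ i j, Tendsto (fun k : ℕ => (Ri R ^ k) i j) atTop (𝓝 0) := by
  obtain ⟨h1, h2⟩ := pow_tendsto_complex _ hR
  have hdet : R.det ≠ 0 := by
    intro h0
    have h3 : (R.map (Int.castRingHom ℂ)).det = (Int.castRingHom ℂ) R.det :=
      ((Int.castRingHom ℂ).map_det R).symm
    rw [h3, h0, map_zero] at h1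
    exact not_isUnit_zero h1
  refine ⟨hdet, fun i j => ?_⟩
  have hRd : IsUnit (R.map (Int.castRingHom ℝ)).det := by
    have h3 : (R.map (Int.castRingHom ℝ)).det = (Int.castRingHom ℝ) R.det :=
      ((Int.castRingHom ℝ).map_det R).symm
    rw [h3, isUnit_iff_ne_zero]
    simpa using hdet
  have hmap : (Ri R).map Complex.ofRealHom = (R.map (Int.castRingHom ℂ))⁻¹ := by
    symm
    apply Matrix.inv_eq_right_inv
    have h4 : R.map (Int.castRingHom ℂ) = (R.map (Int.castRingHom ℝ)).map Complex.ofRealHom := by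
      ext a b; simp
    rw [h4, ← Matrix.map_mul, Ri, Matrix.mul_nonsing_inv _ hRd]
    ext a b
    simp [Matrix.one_apply]
  have hpow : ∀ k : ℕ, (Ri R ^ k).map Complex.ofRealHom = (R.map (Int.castRingHom ℂ))⁻¹ ^ k := by
    intro k
    rw [← hmap]
    exact (Matrix.map_pow (Ri R) Complex.ofRealHom k)
  rw [tendsto_zero_iff_norm_tendsto_zero]
  refine squeeze_zero (fun k => norm_nonneg _) (fun k => ?_) h2
  rw [← hpow]
  have h5 : ‖(Ri R ^ k) i j‖₊ = ‖((Ri R ^ k).map Complex.ofRealHom) i j‖₊ := by simp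
  have h6 : ‖((Ri R ^ k).map Complex.ofRealHom) i j‖₊ ≤ ‖(Ri R ^ k).map Complex.ofRealHom‖₊ := by
    rw [Matrix.linfty_opNNNorm_def]
    refine le_trans ?_ (Finset.le_sup (Finset.mem_univ i))
    exact Finset.single_le_sum (f := fun j => ‖((Ri R ^ k).map Complex.ofRealHom) i j‖₊)
      (fun _ _ => zero_le) (Finset.mem_univ j)
  have h7 := h5.le.trans h6
  exact_mod_cast h7

end Pool.Agent.Y291.Ov
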