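import Pool.Agent.Y291.Ov.Lin
import Pool.Agent.Y291.Ov.Extreme

set_option autoImplicit false

open MeasureTheory Set Filter Topology Matrix
open scoped ENNReal NNReal

namespace Pool.Agent.Y291.Ov

variable {d : ℕ}

/-- integer vectors as real vectors -/
def cst (c : Fin d → ℤ) : Fin d → ℝ := fun i => (c i : ℝ)

lemma cst_add (a b : Fin d → ℤ) : cst (a + b) = cst a + cst b := by
  funext i; simp [cst]

lemma cst_sub (a b : Fin d → ℤ) : cst (a - b) = cst a - cst b := by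
  funext i; simp [cst]

lemma cst_inj {a b : Fin d → ℤ} (h : cst a = cst b) : a = b := by
  funext i
  have := congrFun h i
  simpa [cst] using this

lemma cst_mulVec (R : Matrix (Fin d) (Fin d) ℤ) (c : Fin d → ℤ) :
    cst (R *ᵥ c) = (R.map (Int.castRingHom ℝ)) *ᵥ cst c := by
  funext i
  simp [cst, Matrix.mulVec, dotProduct]

lemma isUnit_real {R : Matrix (Fin d) (Fin d) ℤ} (hR : R.det ≠ 0) :
    IsUnit (R.map (Int.castRingHom ℝ)).det := by
  have h3 : (R.map (Int.castRingHom ℝ)).det = (Int.castRingHom ℝ) R.det :=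
    ((Int.castRingHom ℝ).map_det R).symm
  rw [h3, isUnit_iff_ne_zero]
  simpa using hR

lemma Ri_mul {R : Matrix (Fin d) (Fin d) ℤ} (hR : R.det ≠ 0) :
    Ri R * R.map (Int.castRingHom ℝ) = 1 := Matrix.nonsing_inv_mul _ (isUnit_real hR)

lemma mul_Ri {R : Matrix (Fin d) (Fin d) ℤ} (hR : R.det ≠ 0) :
    R.map (Int.castRingHom ℝ) * Ri R = 1 := Matrix.mul_nonsing_inv _ (isUnit_real hR)

lemma Ri_pow_mul {R : Matrix (Fin d) (Fin d) ℤ} (hR : R.det ≠ 0) (k : ℕ) :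
    Ri R ^ k * (R.map (Int.castRingHom ℝ)) ^ k = 1 := by
  induction k with
  | zero => simp
  | succ k ih =>
    rw [pow_succ (Ri R), pow_succ' (R.map (Int.castRingHom ℝ)), mul_assoc,
      ← mul_assoc (Ri R) (R.map (Int.castRingHom ℝ)), Ri_mul hR, one_mul, ih]

lemma mul_Ri_pow {R : Matrix (Fin d) (Fin d) ℤ} (hR : R.det ≠ 0) (k : ℕ) :
    (R.map (Int.castRingHom ℝ)) ^ k * Ri R ^ k = 1 := by
  induction k with
  | zero => simp
  | succ k ih =>
    rw [pow_succ (R.map (Int.castRingHom ℝ)), pow_succ' (Ri R), mul_assoc,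
      ← mul_assoc (R.map (Int.castRingHom ℝ)) (Ri R), mul_Ri hR, one_mul, ih]

lemma map_pow_int (R : Matrix (Fin d) (Fin d) ℤ) (k : ℕ) :
    (R ^ k).map (Int.castRingHom ℝ) = (R.map (Int.castRingHom ℝ)) ^ k :=
  Matrix.map_pow R (Int.castRingHom ℝ) k

/-- the maps `x ↦ R^{-k} (x + c)` -/
noncomputable def psi (R : Matrix (Fin d) (Fin d) ℤ) (k : ℕ) (c : Fin d → ℤ) (x : Fin d → ℝ) :
    Fin d → ℝ := (Ri R ^ k) *ᵥ (x + cst c)

lemma measurable_mulVec (A : Matrix (Fin d) (Fin d) ℝ) : Measurable (fun x => A *ᵥ x) :=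
  (Continuous.matrix_mulVec continuous_const continuous_id).measurable

lemma continuous_psi (R : Matrix (Fin d) (Fin d) ℤ) (k : ℕ) (c : Fin d → ℤ) :
    Continuous (psi R k c) :=
  Continuous.matrix_mulVec continuous_const (continuous_id.add continuous_const)

lemma measurable_psi (R : Matrix (Fin d) (Fin d) ℤ) (k : ℕ) (c : Fin d → ℤ) :
    Measurable (psi R k c) := (continuous_psi R k c).measurable

lemma psi_zero (R : Matrix (Fin d) (Fin d) ℤ) (x : Fin d → ℝ) : psi R 0 0 x = x := by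
  unfold psi
  rw [pow_zero, Matrix.one_mulVec]
  funext i
  simp [cst]

lemma psi_comp {R : Matrix (Fin d) (Fin d) ℤ} (hR : R.det ≠ 0) (m k : ℕ) (u w : Fin d → ℤ)
    (x : Fin d → ℝ) : psi R m u (psi R k w x) = psi R (m + k) (w + (R ^ k) *ᵥ u) x := by
  unfold psi
  have h1 : cst u = (Ri R ^ k) *ᵥ cst ((R ^ k) *ᵥ u) := by
    rw [cst_mulVec, map_pow_int, Matrix.mulVec_mulVec, Ri_pow_mul hR, Matrix.one_mulVec]
  rw [h1, ← Matrix.mulVec_add, Matrix.mulVec_mulVec, ← pow_add, cst_add, add_assoc]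

lemma psi_injective {R : Matrix (Fin d) (Fin d) ℤ} (hR : R.det ≠ 0) (k : ℕ) (c : Fin d → ℤ) :
    Function.Injective (psi R k c) := by
  intro x y h
  unfold psi at h
  have h1 := congrArg (fun v => ((R.map (Int.castRingHom ℝ)) ^ k) *ᵥ v) h
  simp only [Matrix.mulVec_mulVec, mul_Ri_pow hR, Matrix.one_mulVec] at h1
  exact add_right_cancel h1

lemma mulVec_pow_injective {R : Matrix (Fin d) (Fin d) ℤ} (hR : R.det ≠ 0) (k : ℕ)
    {a b : Fin d → ℤ} (h : (R ^ k) *ᵥ a = (R ^ k) *ᵥ b) : a = b := by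
  have h1 := congrArg cst h
  rw [cst_mulVec, cst_mulVec, map_pow_int] at h1
  have h2 := congrArg (fun v => (Ri R ^ k) *ᵥ v) h1
  simp only [Matrix.mulVec_mulVec, Ri_pow_mul hR, Matrix.one_mulVec] at h2
  exact cst_inj h2

/-- the digits of level `k` -/
def C (R : Matrix (Fin d) (Fin d) ℤ) (B : Finset (Fin d → ℤ)) : ℕ → Finset (Fin d → ℤ)
  | 0 => {0}
  | k + 1 => Finset.image₂ (fun b c => c + (R ^ k) *ᵥ b) B (C R B k)

lemma mem_C_succ {R : Matrix (Fin d) (Fin d) ℤ} {B : Finset (Fin d → ℤ)} {k : ℕ}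
    {x : Fin d → ℤ} : x ∈ C R B (k + 1) ↔ ∃ b ∈ B, ∃ c ∈ C R B k, c + (R ^ k) *ᵥ b = x := by
  simp [C, Finset.mem_image₂]

lemma mem_C_add {R : Matrix (Fin d) (Fin d) ℤ} {B : Finset (Fin d → ℤ)} (m k : ℕ)
    {x : Fin d → ℤ} : x ∈ C R B (m + k) ↔ ∃ u ∈ C R B m, ∃ w ∈ C R B k, w + (R ^ k) *ᵥ u = x := by
  induction m generalizing x with
  | zero =>
    rw [zero_add]
    simp [C]
  | succ m ih =>
    rw [show m + 1 + k = (m + k) + 1 by ring, mem_C_succ]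
    constructor
    · rintro ⟨b, hb, c, hc, rfl⟩
      obtain ⟨u, hu, w, hw, rfl⟩ := ih.1 hc
      refine ⟨u + (R ^ m) *ᵥ b, mem_C_succ.2 ⟨b, hb, u, hu, rfl⟩, w, hw, ?_⟩
      rw [Matrix.mulVec_add, Matrix.mulVec_mulVec, ← pow_add, add_comm k m]
      abel
    · rintro ⟨u', hu', w, hw, rfl⟩
      obtain ⟨b, hb, u, hu, rfl⟩ := mem_C_succ.1 hu'
      refine ⟨b, hb, w + (R ^ k) *ᵥ u, ih.2 ⟨u, hu, w, hw, rfl⟩, ?_⟩
      rw [Matrix.mulVec_add, Matrix.mulVec_mulVec, ← pow_add, add_comm k m]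
      abel

lemma mem_C_one {R : Matrix (Fin d) (Fin d) ℤ} {B : Finset (Fin d → ℤ)} {b : Fin d → ℤ} :
    b ∈ C R B 1 ↔ b ∈ B := by
  rw [show (1 : ℕ) = 0 + 1 by rfl, mem_C_succ]
  simp [C]

end Pool.Agent.Y291.Ov
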