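import Pool.Agent.Y291.Ov.Maps

set_option autoImplicit false

open MeasureTheory Set Filter Topology Matrix
open scoped ENNReal NNReal

namespace Pool.Agent.Y291.Ov

variable {d : ℕ} {R : Matrix (Fin d) (Fin d) ℤ} {B : Finset (Fin d → ℤ)}
  {μ : Measure (Fin d → ℝ)} {T : Set (Fin d → ℝ)}

lemma card_ne_zero' [IsProbabilityMeasure μ]
    (hμ : μ = ∑ b ∈ B, ((B.card : ℝ≥0∞)⁻¹) • μ.map (psi R 1 b)) : B.card ≠ 0 := by
  intro h
  have hB : B = ∅ := Finset.card_eq_zero.1 h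
  have h1 : μ univ = 0 := by
    rw [hμ, hB]; simp
  rw [measure_univ] at h1
  exact one_ne_zero h1

lemma one_step [IsProbabilityMeasure μ]
    (hμ : μ = ∑ b ∈ B, ((B.card : ℝ≥0∞)⁻¹) • μ.map (psi R 1 b)) {A : Set (Fin d → ℝ)}
    (hA : MeasurableSet A) :
    μ A = ∑ b ∈ B, (B.card : ℝ≥0∞)⁻¹ * μ (psi R 1 b ⁻¹' A) := by
  conv_lhs => rw [hμ]
  rw [Measure.finsetSum_apply]
  refine Finset.sum_congr rfl fun b _ => ?_
  rw [Measure.smul_apply, smul_eq_mul, Measure.map_apply (measurable_psi R 1 b) hA]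

lemma le_of_levels [IsProbabilityMeasure μ] (hR : R.det ≠ 0)
    (hμ : μ = ∑ b ∈ B, ((B.card : ℝ≥0∞)⁻¹) • μ.map (psi R 1 b)) (k : ℕ) (c : ℝ≥0∞) :
    ∀ A : Set (Fin d → ℝ), MeasurableSet A → (∀ u ∈ C R B k, μ (psi R k u ⁻¹' A) ≤ c) →
      μ A ≤ c := by
  have hB := card_ne_zero' hμ
  have hBE : (B.card : ℝ≥0∞) ≠ 0 := by exact_mod_cast hB
  have hBT : (B.card : ℝ≥0∞) ≠ ⊤ := ENNReal.natCast_ne_top _
  induction k with
  | zero =>
    intro A _ h
    have h1 := h 0 (by simp [C])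
    have h2 : psi R 0 0 ⁻¹' A = A := by
      ext x
      rw [mem_preimage, psi_zero]
    rwa [h2] at h1
  | succ k ih =>
    intro A hA h
    rw [one_step hμ hA]
    have h1 : ∀ b ∈ B, (B.card : ℝ≥0∞)⁻¹ * μ (psi R 1 b ⁻¹' A) ≤ (B.card : ℝ≥0∞)⁻¹ * c := by
      intro b hb
      refine mul_le_mul_right (ih _ ((measurable_psi R 1 b) hA) fun u hu => ?_) _
      have h2 := h (u + (R ^ k) *ᵥ b) (mem_C_succ.2 ⟨b, hb, u, hu, rfl⟩)
      have h3 : psi R (k + 1) (u + (R ^ k) *ᵥ b) ⁻¹' A = psi R k u ⁻¹' (psi R 1 b ⁻¹' A) := by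
        ext x
        rw [mem_preimage, mem_preimage, mem_preimage, psi_comp hR, add_comm 1 k]
      rwa [h3] at h2
    refine (Finset.sum_le_sum h1).trans ?_
    rw [Finset.sum_const, nsmul_eq_mul, ← mul_assoc, ENNReal.mul_inv_cancel hBE hBT, one_mul]

lemma image_subset_T (hR : R.det ≠ 0) (hT : T = ⋃ b ∈ B, psi R 1 b '' T) (k : ℕ) :
    ∀ u ∈ C R B k, ∀ x ∈ T, psi R k u x ∈ T := by
  induction k with
  | zero =>
    intro u hu x hx
    have : u = 0 := by simpa [C] using hu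
    rw [this, psi_zero]
    exact hx
  | succ k ih =>
    intro u hu x hx
    obtain ⟨b, hb, c, hc, rfl⟩ := mem_C_succ.1 hu
    rw [add_comm k 1, ← psi_comp hR, hT]
    exact mem_iUnion₂.2 ⟨b, hb, psi R k c x, ih c hc x hx, rfl⟩

lemma exists_piece (hR : R.det ≠ 0) (hT : T = ⋃ b ∈ B, psi R 1 b '' T) (k : ℕ) :
    ∀ x ∈ T, ∃ u ∈ C R B k, ∃ y ∈ T, psi R k u y = x := by
  induction k with
  | zero =>
    intro x hx
    exact ⟨0, by simp [C], x, hx, psi_zero R x⟩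
  | succ k ih =>
    intro x hx
    rw [hT] at hx
    obtain ⟨b, hb, y, hy, rfl⟩ := mem_iUnion₂.1 hx
    obtain ⟨u, hu, z, hz, rfl⟩ := ih y hy
    refine ⟨u + (R ^ k) *ᵥ b, mem_C_succ.2 ⟨b, hb, u, hu, rfl⟩, z, hz, ?_⟩
    rw [psi_comp hR, add_comm 1 k]

lemma norm_mulVec_le' (M : Matrix (Fin d) (Fin d) ℝ) (x : Fin d → ℝ) :
    ‖M *ᵥ x‖ ≤ (∑ i, ∑ j, |M i j|) * ‖x‖ := by
  rw [pi_norm_le_iff_of_nonneg (by positivity)]
  intro i
  rw [Matrix.mulVec, dotProduct, Real.norm_eq_abs]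
  calc |∑ j, M i j * x j| ≤ ∑ j, |M i j * x j| := Finset.abs_sum_le_sum_abs _ _
    _ ≤ ∑ j, |M i j| * ‖x‖ := by
        refine Finset.sum_le_sum fun j _ => ?_
        rw [abs_mul]
        exact mul_le_mul_of_nonneg_left (norm_le_pi_norm x j) (abs_nonneg _)
    _ = (∑ j, |M i j|) * ‖x‖ := by rw [Finset.sum_mul]
    _ ≤ (∑ i, ∑ j, |M i j|) * ‖x‖ := by
        refine mul_le_mul_of_nonneg_right ?_ (norm_nonneg _)
        exact Finset.single_le_sum (f := fun i => ∑ j, |M i j|)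
          (fun i _ => Finset.sum_nonneg fun j _ => abs_nonneg _) (Finset.mem_univ i)

lemma delta_tendsto (hlim : ∀ i j, Tendsto (fun k => (Ri R ^ k) i j) atTop (𝓝 0)) :
    Tendsto (fun k => ∑ i, ∑ j, |(Ri R ^ k) i j|) atTop (𝓝 0) := by
  have h : Tendsto (fun k => ∑ i, ∑ j, |(Ri R ^ k) i j|) atTop
      (𝓝 (∑ i : Fin d, ∑ j : Fin d, |(0 : ℝ)|)) := by
    refine tendsto_finsetSum _ fun i _ => tendsto_finsetSum _ fun j _ => ?_
    exact (hlim i j).abs
  simpa using h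

lemma supp [IsProbabilityMeasure μ] (hR : R.det ≠ 0)
    (hlim : ∀ i j, Tendsto (fun k => (Ri R ^ k) i j) atTop (𝓝 0))
    (hμ : μ = ∑ b ∈ B, ((B.card : ℝ≥0∞)⁻¹) • μ.map (psi R 1 b))
    (hTc : IsCompact T) (hTne : T.Nonempty) (hT : T = ⋃ b ∈ B, psi R 1 b '' T) :
    μ Tᶜ = 0 := by
  obtain ⟨t, ht⟩ := hTne
  obtain ⟨M, hM⟩ : ∃ M : ℝ, M = ‖t‖ := ⟨_, rfl⟩
  have hM0 : 0 ≤ M := by rw [hM]; exact norm_nonneg _
  have htail : Tendsto (fun n : ℕ => μ {x : Fin d → ℝ | (n : ℝ) < ‖x‖}) atTop (𝓝 0) := by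
    have h1 : Tendsto (fun n : ℕ => μ {x : Fin d → ℝ | (n : ℝ) < ‖x‖}) atTop
        (𝓝 (μ (⋂ n : ℕ, {x : Fin d → ℝ | (n : ℝ) < ‖x‖}))) := by
      refine tendsto_measure_iInter_atTop (fun n => ?_) (fun m n hmn x hx => ?_) ⟨0, measure_ne_top _ _⟩
      · exact (measurableSet_lt measurable_const measurable_norm).nullMeasurableSet
      · have : (m : ℝ) ≤ n := by exact_mod_cast hmn
        exact lt_of_le_of_lt this hx
    have h2 : (⋂ n : ℕ, {x : Fin d → ℝ | (n : ℝ) < ‖x‖}) = ∅ := by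
      rw [eq_empty_iff_forall_notMem]
      intro x hx
      obtain ⟨n, hn⟩ := exists_nat_gt ‖x‖
      have := mem_iInter.1 hx n
      exact absurd this (not_lt.2 hn.le)
    rwa [h2, measure_empty] at h1
  have hA : ∀ ε : ℝ, 0 < ε → μ {x | ε < Metric.infDist x T} = 0 := by
    intro ε hε
    have hmeas : MeasurableSet {x : Fin d → ℝ | ε < Metric.infDist x T} :=
      measurableSet_lt measurable_const (Metric.continuous_infDist_pt T).measurable
    have hle : ∀ n : ℕ, μ {x | ε < Metric.infDist x T} ≤ μ {x : Fin d → ℝ | (n : ℝ) < ‖x‖} := by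
      intro n
      have hev : ∀ᶠ k in atTop, (∑ i, ∑ j, |(Ri R ^ k) i j|) < ε / ((n : ℝ) + M + 1) := by
        refine (delta_tendsto hlim).eventually_lt_const ?_
        have : (0 : ℝ) ≤ n := n.cast_nonneg
        positivity
      obtain ⟨k, hk⟩ := hev.exists
      refine le_of_levels hR hμ k _ _ hmeas fun u hu => measure_mono fun x hx => ?_
      rw [mem_preimage] at hx
      have hx' : ε < Metric.infDist (psi R k u x) T := hx
      have h1 : Metric.infDist (psi R k u x) T ≤ dist (psi R k u x) (psi R k u t) :=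
        Metric.infDist_le_dist_of_mem (image_subset_T hR hT k u hu t ht)
      have h2 : dist (psi R k u x) (psi R k u t) ≤ (∑ i, ∑ j, |(Ri R ^ k) i j|) * ‖x - t‖ := by
        rw [dist_eq_norm]
        have : psi R k u x - psi R k u t = (Ri R ^ k) *ᵥ (x - t) := by
          unfold psi
          rw [← Matrix.mulVec_sub]
          congr 1
          abel
        rw [this]
        exact norm_mulVec_le' _ _
      show (n : ℝ) < ‖x‖
      by_contra hcon
      rw [not_lt] at hcon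
      have h3 : ‖x - t‖ ≤ n + M := by
        calc ‖x - t‖ ≤ ‖x‖ + ‖t‖ := norm_sub_le _ _
          _ ≤ n + M := by rw [hM]; linarith
      have hn0 : (0 : ℝ) ≤ n := n.cast_nonneg
      have h4 : (∑ i, ∑ j, |(Ri R ^ k) i j|) * ‖x - t‖ ≤ ε / ((n : ℝ) + M + 1) * (n + M) := by
        refine mul_le_mul hk.le h3 (norm_nonneg _) ?_
        positivity
      have h5 : ε / ((n : ℝ) + M + 1) * (n + M) ≤ ε := by
        rw [div_mul_eq_mul_div, div_le_iff₀ (by positivity)]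
        nlinarith
      linarith
    exact le_antisymm (ge_of_tendsto htail (Eventually.of_forall hle)) bot_le
  have hcov : Tᶜ ⊆ ⋃ n : ℕ, {x : Fin d → ℝ | 1 / ((n : ℝ) + 1) < Metric.infDist x T} := by
    intro x hx
    have hpos : 0 < Metric.infDist x T :=
      (hTc.isClosed.notMem_iff_infDist_pos ⟨t, ht⟩).1 hx
    obtain ⟨n, hn⟩ := exists_nat_one_div_lt hpos
    exact mem_iUnion.2 ⟨n, hn⟩
  refine measure_mono_null hcov (measure_iUnion_null fun n => hA _ ?_)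
  positivity

end Pool.Agent.Y291.Ov
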